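import Pool.Agent.Y821.DD.Iso

/-!
# Subsets of the grid without isosceles triangles

For every `c < 2 log 2` one has `f(N) ≤ N ^ (2 - c / log log N)` for all large `N`. More generally,
if every circle centred at a point of `A ⊆ [N]²` contains at most `L` points of `A`, then
`|A| ≤ L N ^ (2 - c / log log N)`, uniformly in `L ≥ 1`.

Proof. Let `P` be a set of primes that are `1` modulo `4`, `d` their product. There are `2 ^ |P|`
sublattices of index `d` given by the choice of a square root of `-1` modulo every `p ∈ P`; on each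
of them the squared length is divisible by `d`. A set with the circle condition has at most
`L |A|` ordered pairs at every given distance. Cauchy-Schwarz on the cosets of each sublattice gives
`2 ^ |P| |A|² ≤ d 2 ^ |P| |A| + 2 L |A| N² ∏ (1 + 1/p)` (the counting inequality of the file
`Pool.Agent.H264R2.Pigeon`), that is `|A| ≤ d + 2 L N² ∏ (1 + 1/p) / 2`. By the prime number theorem
for the residue class `1` modulo `4` one can take `|P| ≥ (2 - ε) log N / log log N` large primes with
`d ≤ N ^ (2 - ε')`.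
-/

set_option autoImplicit false

namespace Pool.Agent.Results.MP_fcf645_co.IsoscelesFree

open Finset Pool.Agent.H264R2.Pigeon

/-- Euclidean distance of two lattice points. -/
noncomputable def eucl (a b : ℤ × ℤ) : ℝ :=
  Real.sqrt (((a.1 : ℝ) - b.1) ^ 2 + ((a.2 : ℝ) - b.2) ^ 2)

/-- The grid `[N]² = {1,…,N}²`. -/
noncomputable def grid (N : ℕ) : Finset (ℤ × ℤ) := Finset.Icc (1 : ℤ) N ×ˢ Finset.Icc (1 : ℤ) N

/-- `A` contains no isosceles triangle, degenerate ones included: no pairwise distinct
`a, b, c ∈ A` with `|a - b| = |a - c|`. -/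
def IsoFree (A : Finset (ℤ × ℤ)) : Prop :=
  ∀ a ∈ A, ∀ b ∈ A, ∀ c ∈ A, a ≠ b → a ≠ c → b ≠ c → eucl a b ≠ eucl a c

open Classical in
/-- `f(N)`: the largest size of a subset of `[N]²` without isosceles triangles. -/
noncomputable def f (N : ℕ) : ℕ :=
  ((grid N).powerset.filter IsoFree).sup Finset.card

open Classical in
/-- Every circle of positive radius centred at a point of `A` contains at most `L` points
of `A`. -/
def Circles (L : ℕ) (A : Finset (ℤ × ℤ)) : Prop :=
  ∀ a ∈ A, ∀ t : ℝ, 0 < t → (A.filter (fun b => eucl a b = t)).card ≤ L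

lemma eucl_nd (x : (ℤ × ℤ) × (ℤ × ℤ)) : eucl x.1 x.2 = √((nd x : ℕ) : ℝ) := by
  have h1 := nd_cast x
  have h2 : ((nd x : ℕ) : ℝ) = ((x.1.1 : ℝ) - x.2.1) ^ 2 + ((x.1.2 : ℝ) - x.2.2) ^ 2 := by
    have h3 : (((nd x : ℕ) : ℤ) : ℝ) = ((N2 (x.1 - x.2) : ℤ) : ℝ) := by rw [h1]
    unfold N2 at h3
    simp only [Prod.fst_sub, Prod.snd_sub] at h3
    push_cast at h3
    exact h3
  rw [h2]
  rfl

lemma circles_nd {L : ℕ} {A : Finset (ℤ × ℤ)} (hA : Circles L A) (m : ℕ) (hm : 0 < m) :
    ((A ×ˢ A).filter (fun x => nd x = m)).card ≤ L * A.card := by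
  classical
  have hm' : (0 : ℝ) < √(m : ℝ) := Real.sqrt_pos.2 (by exact_mod_cast hm)
  refine Finset.card_le_mul_card_image_of_maps_to (f := Prod.fst) (t := A) ?_ L ?_
  · intro x hx
    exact (mem_product.1 (mem_filter.1 hx).1).1
  · intro a ha
    refine le_trans ?_ (hA a ha _ hm')
    refine Finset.card_le_card_of_injOn Prod.snd ?_ ?_
    · intro x hx
      simp only [coe_filter, mem_filter, mem_product, Set.mem_ofPred_eq] at hx ⊢
      refine ⟨hx.1.1.2, ?_⟩
      rw [← hx.2, eucl_nd, hx.1.2]
    · intro x hx y hy hxy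
      simp only [coe_filter, mem_filter, mem_product, Set.mem_ofPred_eq] at hx hy
      exact Prod.ext (hx.2.trans hy.2.symm) hxy

lemma isoFree_circles {A : Finset (ℤ × ℤ)} (hA : IsoFree A) : Circles 1 A := by
  classical
  intro a ha t ht
  rw [Finset.card_le_one]
  intro b hb c hc
  rw [mem_filter] at hb hc
  by_contra hbc
  have hne : ∀ z : ℤ × ℤ, eucl a z = t → a ≠ z := by
    intro z hz h
    rw [← h] at hz
    unfold eucl at hz
    simp at hz
    linarith
  exact hA a ha b hb.1 c hc.1 (hne b hb.2) (hne c hc.2) hbc (hb.2.trans hc.2.symm)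

/-- For every `c < 2 log 2`: for all large `N` the largest subset of `[N]²` without isosceles
triangles has at most `N ^ (2 - c / log log N)` points, and every `A ⊆ [N]²` such that each circle
centred at a point of `A` contains at most `L ≥ 1` points of `A` has at most
`L N ^ (2 - c / log log N)` points. -/
theorem result : ∀ c : ℝ, c < 2 * Real.log 2 → ∃ N₀ : ℕ, ∀ N : ℕ, N₀ ≤ N →
    (f N : ℝ) ≤ (N : ℝ) ^ (2 - c / Real.log (Real.log N)) ∧
    ∀ L : ℕ, 1 ≤ L → ∀ A : Finset (ℤ × ℤ), A ⊆ grid N → Circles L A →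
      (A.card : ℝ) ≤ L * (N : ℝ) ^ (2 - c / Real.log (Real.log N)) := by
  classical
  intro c hc
  obtain ⟨n₀, h⟩ := Pool.Agent.Y821.DD.iso c hc
  refine ⟨n₀, fun n hn => ?_⟩
  have key : ∀ L : ℕ, 1 ≤ L → ∀ A : Finset (ℤ × ℤ), A ⊆ grid n → Circles L A →
      (A.card : ℝ) ≤ L * (n : ℝ) ^ (2 - c / Real.log (Real.log n)) := by
    intro L hL A hA hC
    refine h n hn A ?_ L hL ?_
    · intro a ha
      have := hA ha
      rw [grid, mem_product, mem_Icc, mem_Icc] at this
      exact this
    · intro m hm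
      exact circles_nd hC m hm
  refine ⟨?_, key⟩
  have hne : ((grid n).powerset.filter IsoFree).Nonempty := by
    refine ⟨∅, ?_⟩
    rw [mem_filter, mem_powerset]
    exact ⟨Finset.empty_subset _, fun a ha => absurd ha (Finset.notMem_empty a)⟩
  obtain ⟨A, hA, hcard⟩ := Finset.exists_mem_eq_sup _ hne Finset.card
  have hk : f n = A.card := by
    unfold f
    convert hcard
  rw [hk]
  rw [mem_filter, mem_powerset] at hA
  have := key 1 le_rfl A hA.1 (isoFree_circles hA.2)
  simpa using this

end Pool.Agent.Results.MP_fcf645_co.IsoscelesFree
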