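import Pool.Agent.Y821.DD.Low

/-!
# A large subset of the grid without isosceles triangles

For every `N ≥ 2` one has `f(N) ≥ N / (100 √(log N))`.

Proof. The number of isosceles triples of `[N]²` is at most `N²` times the number of solutions of
`x y = z w` with `|x|, |y|, |z|, |w| ≤ 2 N`, hence at most `1088 N⁴ log N`. Take a random subset
of density `p = 1 / (47 N √(log N))` and delete one point of each isosceles triple.
-/

set_option autoImplicit false

namespace Pool.Agent.Results.MP_fcf645_co.LowerSqrtLog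

open Finset Pool.Agent.H264R2.Pigeon Pool.Agent.Y821.DD

/-- Euclidean distance of two lattice points. -/
noncomputable def eucl (a b : ℤ × ℤ) : ℝ :=
  Real.sqrt (((a.1 : ℝ) - b.1) ^ 2 + ((a.2 : ℝ) - b.2) ^ 2)

/-- The grid `[N]² = {1,…,N}²`. -/
noncomputable def grid (N : ℕ) : Finset (ℤ × ℤ) := Finset.Icc (1 : ℤ) N ×ˢ Finset.Icc (1 : ℤ) N

/-- `A` contains no isosceles triangle, degenerate ones included: no pairwise distinct
`a, b, c ∈ A` with `|a - b| = |a - c|`. -/
def IsoFree (A : Finset (ℤ × ℤ)) : Prop :=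
  ∀ a ∈ A, ∀ b ∈ A, ∀ c ∈ A, a ≠ b → a ≠ c → b ≠ c → eucl a b ≠ eucl a c

open Classical in
/-- `f(N)`: the largest size of a subset of `[N]²` without isosceles triangles. -/
noncomputable def f (N : ℕ) : ℕ :=
  ((grid N).powerset.filter IsoFree).sup Finset.card

lemma eucl_N2 (a b : ℤ × ℤ) : eucl a b = √((N2 (a - b) : ℤ) : ℝ) := by
  unfold eucl N2
  congr 1
  simp only [Prod.fst_sub, Prod.snd_sub]
  push_cast
  ring

lemma N2_nonneg (v : ℤ × ℤ) : (0 : ℝ) ≤ ((N2 v : ℤ) : ℝ) := by
  have : 0 ≤ N2 v := by unfold N2; positivity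
  exact_mod_cast this

/-- For every `N ≥ 2` there is a subset of `[N]²` without isosceles triangles that has at least
`N / (100 √(log N))` points. -/
theorem result : ∀ N : ℕ, 2 ≤ N → (N : ℝ) / (100 * √(Real.log N)) ≤ (f N : ℝ) := by
  classical
  intro N hN
  obtain ⟨A, hA1, hA2⟩ := exists_set N hN
  refine hA2.trans ?_
  have hcard : (A.image (pt N)).card = A.card := card_image_of_injective _ (pt_inj N)
  have hmem : A.image (pt N) ∈ (grid N).powerset.filter IsoFree := by
    rw [mem_filter, mem_powerset]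
    refine ⟨?_, ?_⟩
    · intro x hx
      rw [mem_image] at hx
      obtain ⟨v, -, rfl⟩ := hx
      unfold grid pt
      rw [mem_product, mem_Icc, mem_Icc]
      have h1 := v.1.isLt
      have h2 := v.2.isLt
      refine ⟨⟨by simp only; omega, by simp only; omega⟩, ⟨by simp only; omega, by simp only; omega⟩⟩
    · intro a ha b hb c hc hab hac hbc h
      rw [mem_image] at ha hb hc
      obtain ⟨a', ha', rfl⟩ := ha
      obtain ⟨b', hb', rfl⟩ := hb
      obtain ⟨c', hc', rfl⟩ := hc
      refine hA1 a' ha' b' hb' c' hc' (fun h1 => hab (by rw [h1])) (fun h1 => hac (by rw [h1]))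
        (fun h1 => hbc (by rw [h1])) ?_
      rw [eucl_N2, eucl_N2, Real.sqrt_inj (N2_nonneg _) (N2_nonneg _)] at h
      exact_mod_cast h
  have h1 : (A.image (pt N)).card ≤ f N := Finset.le_sup (f := Finset.card) hmem
  rw [hcard] at h1
  exact_mod_cast h1

end Pool.Agent.Results.MP_fcf645_co.LowerSqrtLog
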